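import Pool.Agent.N879.GD.Stm

set_option autoImplicit false

/-!
Project GZ (helper260): completion of the plan `Pool.Agent.N879.GD.Stm` (moments of `|ζ(1/2+iλ_j t)|²` for generic
dilations `λ`, power saving). Additional statements.
-/

namespace Pool.Agent.U260.GZ

open Complex Filter Topology MeasureTheory Set
open Pool.Agent.N879.GD

/-- LD: the derivatives of `log log (1+t/m)`, divided by `kap m R` -/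
def S_LD : Prop := ∀ M : ℕ, ∃ c0 C0 : ℝ, 0 < c0 ∧ ∀ m R : ℕ, 1 ≤ m → 1 ≤ R → ∃ φ : ℕ → ℝ → ℝ,
  (∀ t ∈ Icc (R : ℝ) (3 * R), φ 0 t = Real.log (Real.log (1 + t / m)) / kap m R) ∧
  (∀ j ≤ M, ∀ t ∈ Icc (R : ℝ) (3 * R), HasDerivAt (φ j) (φ (j + 1) t) t) ∧
  ∀ j, 1 ≤ j → j ≤ M → ∀ t ∈ Icc (R : ℝ) (3 * R),
    c0 ≤ (-1) ^ (j + 1) * φ j t * (R : ℝ) ^ j ∧ (-1) ^ (j + 1) * φ j t * (R : ℝ) ^ j ≤ C0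

/-- BC: bound of a block, with a saving if the block is long -/
def S_BC : Prop := ∃ (δ : ℝ) (b : ℕ), 0 < δ ∧ δ ≤ 1 / 8 ∧ 4 ≤ b ∧ ∃ C T₀ : ℝ, 0 < C ∧ 1 ≤ T₀ ∧
  ∀ (σ T y ω : ℝ) (m R L : ℕ), 0 ≤ σ → σ ≤ 1 → T₀ ≤ T → 1 ≤ m → 1 ≤ R → L ≤ R →
  (m : ℝ) * (m + R) ≤ T ^ (5 / 4 : ℝ) →
  ‖∑ r ∈ Finset.range L, bt σ b T y ω m (m + R + r)‖ ≤
    C * (1 + |y|) * √((R : ℝ) / m) * T ^ (-(1 / 2 : ℝ)) *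
      (if T ^ (1 / 4 : ℝ) ≤ (R : ℝ) then T ^ (-δ) else 1)

/-- DI1: the diagonal sum without truncation -/
def S_DI1 : Prop := ∃ C : ℝ, 0 < C ∧ ∀ u : ℝ, 1 ≤ u →
  Summable (fun n : ℕ => 2 / ((n : ℝ) + 1) * Pool.Agent.Y969.GP.V (2 * Real.pi * ((n : ℝ) + 1) ^ 2 / u)) ∧
  |∑' n : ℕ, 2 / ((n : ℝ) + 1) * Pool.Agent.Y969.GP.V (2 * Real.pi * ((n : ℝ) + 1) ^ 2 / u) - D0 u| ≤
    C * u ^ (-(1 / 2 : ℝ))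

end Pool.Agent.U260.GZ
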