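import Pool.Agent.U260.GZ.Cor
import Pool.Agent.U858.GZ.BA
import Pool.Agent.U678.GZ.BB
import Pool.Agent.U394.GZ.BC
import Pool.Agent.U739.GZ.COV
import Pool.Agent.U364.GZ.DET
import Pool.Agent.U603.GZ.DI1
import Pool.Agent.U894.GZ.DIA
import Pool.Agent.U67.GZ.DIL1
import Pool.Agent.U591.GZ.FIN
import Pool.Agent.U187.GZ.GAM
import Pool.Agent.U580.GZ.GF
import Pool.Agent.U8.GZ.GK
import Pool.Agent.U941.GZ.INT
import Pool.Agent.U72.GZ.LD
import Pool.Agent.U221.GZ.LEM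
import Pool.Agent.U934.GZ.LEW
import Pool.Agent.U928.GZ.LIP
import Pool.Agent.U643.GZ.LL
import Pool.Agent.U511.GZ.MB
import Pool.Agent.U301.GZ.OFI
import Pool.Agent.U263.GZ.PL
import Pool.Agent.U354.GZ.SUM
import Pool.Agent.Y587.GP.V
import Pool.Agent.Y587.GP.Chi
import Pool.Agent.Y891.GP.AFE
import Pool.Agent.Y363.GP.ZL

set_option autoImplicit false

/-!
Project GDZ (helper260): assembly of the parts (helper858, helper678, helper394, helper739, helper364, helper603,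
helper894, helper67, helper591, helper187, helper580, helper8, helper941, helper72, helper221, helper934, helper928,
helper643, helper511, helper301, helper263, helper354, helper460).
-/

namespace Pool.Agent.U260.GZ

open Pool.Agent.N879.GD

theorem a_INT : S_INT := Pool.Agent.U941.GZ.t_INT t_CRU

theorem a_LL : S_LL := Pool.Agent.U643.GZL.t_LL Pool.Agent.U72.GZ.t_LD

theorem a_BB : S_BB := Pool.Agent.U678.GZ.BB.t_BB Pool.Agent.U187.GZ.t_GAM Pool.Agent.U580.GZ.t_GF a_LL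

theorem a_BA : S_BA := Pool.Agent.U858.GZ.t_BA (Pool.Agent.U8.GZ.t_GK Pool.Agent.U187.GZ.t_GAM Pool.Agent.U580.GZ.t_GF)

theorem a_SUM : S_SUM := Pool.Agent.U354.GZS.t_SUM (Pool.Agent.U394.GZ.t_BC a_BA a_BB)

theorem a_OFI : S_OFI := Pool.Agent.U301.GZ.t_OFI a_SUM Pool.Agent.Y587.GP.t_V

theorem a_DIA : S_DIA := Pool.Agent.U894.GZ.t_DIA (Pool.Agent.U603.GDZ.t_DI1 Pool.Agent.Y587.GP.t_V) Pool.Agent.Y587.GP.t_V

theorem a_LEM : S_LEM := t_LEM a_OFI a_DIA t_CRU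
  (Pool.Agent.Y891.GP.t_AFE Pool.Agent.Y587.GP.t_V Pool.Agent.Y587.GP.Chi.t_CHI) Pool.Agent.Y363.GP.t_SM

theorem a_DIL1 : S_DIL1 := Pool.Agent.U67.GZ.t_DIL1 (Pool.Agent.U934.GZ.t_LEW a_LEM) Pool.Agent.U263.GZPL.t_PL t_CRU

theorem a_FIN (h : S_DILK) : S_FIN := Pool.Agent.U591.GZ.t_FIN a_DIL1 h Pool.Agent.U511.GZ.t_MB
  (Pool.Agent.U928.GZ.t_LIP t_CRU a_INT) (Pool.Agent.U364.GZ.t_DET t_CRU a_INT) Pool.Agent.U739.GZ.COV.t_COV a_INT

end Pool.Agent.U260.GZ
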