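import Pool.Agent.N879.GD.Stm
import Pool.Agent.N879.GD.Cru
import Pool.Agent.N879.GD.M4b

set_option autoImplicit false

/-!
Project GDZ (helper260): the mean square with a power saving and the additional factor `|ζ(1/2+it)|²`.
-/

namespace Pool.Agent.U260.GZ

open Complex Filter Topology MeasureTheory Set
open Pool.Agent.N879.GD
open Pool.Agent.Y969.GP (ff)

lemma ff_nonneg (u : ℝ) : 0 ≤ ff u := by unfold ff; positivity

lemma ff_cont (h : S_CRU) : Continuous ff := by
  obtain ⟨_, _, _, hc, _, _⟩ := h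
  exact hc

/-- `|ζ|²` is an admissible weight -/
lemma gr_ff (h1 : S_CRU) (h2 : S_M4) : Gr (fun t => ((ff t : ℝ) : ℂ)) := by
  have hc := ff_cont h1
  refine ⟨(continuous_ofReal.comp hc).measurable, fun ε hε => ?_⟩
  obtain ⟨C, hC, h⟩ := h2 ε hε
  refine ⟨C, hC, fun T hT => ?_⟩
  have h3 := h T hT
  have hT0 : (0 : ℝ) ≤ T := by linarith
  rw [intervalIntegral.integral_of_le hT0] at h3
  have h4 : ∫⁻ t in Ioc 0 T, ‖((ff t : ℝ) : ℂ)‖ₑ ^ 2 = ENNReal.ofReal (∫ t in Ioc 0 T, ff t ^ 2) := by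
    rw [ofReal_integral_eq_lintegral_ofReal]
    · refine lintegral_congr fun t => ?_
      rw [← ofReal_norm, norm_real, Real.norm_eq_abs, abs_of_nonneg (ff_nonneg t),
        ENNReal.ofReal_pow (ff_nonneg t)]
    · exact ((hc.pow 2).continuousOn.integrableOn_Icc).mono_set Ioc_subset_Icc_self
    · exact Eventually.of_forall fun t => by positivity
  rw [h4]
  exact ENNReal.ofReal_le_ofReal h3

/-- the constant `1` is an admissible weight -/
lemma gr_one : Gr (fun _ => (1 : ℂ)) := by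
  refine ⟨measurable_const, fun ε hε => ⟨1, one_pos, fun T hT => ?_⟩⟩
  simp only [enorm_one, one_pow, lintegral_const, Measure.restrict_apply MeasurableSet.univ, univ_inter,
    Real.volume_Ioc, sub_zero, one_mul]
  apply ENNReal.ofReal_le_ofReal
  calc T = T ^ (1 : ℝ) := (Real.rpow_one T).symm
    _ ≤ T ^ (1 + ε) := Real.rpow_le_rpow_of_exponent_le hT (by linarith)

/-- there is a positive parameter outside a set of dimension smaller than `1` -/
lemma exists_pos {E : Set (Fin 1 → ℝ)} {s : ℝ} (hs : s < 1) (hE : dimH E ≤ ENNReal.ofReal s) :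
    ∃ l : Fin 1 → ℝ, l ∉ E ∧ 0 < l 0 := by
  by_contra hcon
  push Not at hcon
  have hsub : {l : Fin 1 → ℝ | 0 < l 0} ⊆ E := by
    intro l hl
    by_contra hne
    exact absurd hl (not_lt.2 (hcon l hne))
  have hopen : IsOpen {l : Fin 1 → ℝ | 0 < l 0} := isOpen_lt continuous_const (continuous_apply 0)
  have hne : (interior {l : Fin 1 → ℝ | 0 < l 0}).Nonempty := by
    rw [hopen.interior_eq]
    exact ⟨fun _ => 1, by show (0 : ℝ) < 1; norm_num⟩
  have h1 : dimH {l : Fin 1 → ℝ | 0 < l 0} = Module.finrank ℝ (Fin 1 → ℝ) :=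
    Real.dimH_of_nonempty_interior hne
  have h2 := (dimH_mono hsub).trans hE
  rw [h1] at h2
  simp only [Module.finrank_fintype_fun_eq_card, Fintype.card_fin, Nat.cast_one] at h2
  rw [ENNReal.one_le_ofReal] at h2
  linarith

lemma D0_cont {l : ℝ} (hl : 0 < l) : ContinuousOn (fun t => D0 (l * t)) (Ioi 0) := by
  unfold D0
  refine ContinuousOn.add (ContinuousOn.log ?_ ?_) continuousOn_const
  · fun_prop
  · intro t ht
    have : 0 < l * t / (2 * Real.pi) := by
      have h1 : (0 : ℝ) < t := ht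
      positivity
    exact this.ne'

/-- the mean square with a power saving, for all dilations -/
lemma mean_square (hFIN : S_FIN) (hINT : S_INT) : ∃ δ : ℝ, 0 < δ ∧ δ < 1 ∧ ∃ C : ℝ, 0 < C ∧
    ∀ T : ℝ, 1 ≤ T → |(∫ t in (0 : ℝ)..T, ff t) - ∫ t in (0 : ℝ)..T, D0 t| ≤ C * T ^ (1 - δ) := by
  obtain ⟨δ, hδ, hδ1, h⟩ := hFIN
  obtain ⟨s, hs, hs1, h⟩ := h 1 one_pos
  obtain ⟨E, hE, h⟩ := h (fun _ => 1) gr_one
  obtain ⟨l, hl, hl0⟩ := exists_pos (by simpa using hs1) hE
  obtain ⟨C, hC⟩ := h l hl (fun j => by rw [Fin.eq_zero j]; exact hl0)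
  have hINT1 := hINT 1 (fun _ => 1) gr_one (fun _ => 1) (fun _ => one_pos)
  have hi1 : ∀ T : ℝ, IntegrableOn (fun t => ff t) (Ioc 0 T) := by
    intro T
    have h1 := (hINT1 T).1
    simp only [one_mul, Finset.univ_unique, Finset.prod_const, Finset.card_singleton, pow_one] at h1
    show Integrable (fun t => ff t) (volume.restrict (Ioc 0 T))
    simpa using h1.re
  have hi2 : ∀ T : ℝ, IntegrableOn (fun t => D0 t) (Ioc 0 T) := by
    intro T
    have h1 := (hINT1 T).2
    simp only [one_mul, Finset.univ_unique, Finset.prod_const, Finset.card_singleton, pow_one] at h1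
    show Integrable (fun t => D0 t) (volume.restrict (Ioc 0 T))
    simpa using h1.re
  set M : ℝ := max 1 (l 0) with hM
  have hM1 : 1 ≤ M := le_max_left _ _
  set C0 : ℝ := (∫ t in Ioc 0 M, |ff t|) + ∫ t in Ioc 0 M, |D0 t| with hC0
  have hC0' : 0 ≤ C0 := add_nonneg (integral_nonneg fun _ => abs_nonneg _) (integral_nonneg fun _ => abs_nonneg _)
  refine ⟨δ, hδ, hδ1, C0 + l 0 * |C| * (l 0)⁻¹ ^ (1 - δ) + 1, by positivity, fun T hT => ?_⟩
  have hT0 : (0 : ℝ) < T := by linarith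
  have hTp : 1 ≤ T ^ (1 - δ) := Real.one_le_rpow hT (by linarith)
  rcases le_or_gt T M with hTM | hTM
  · have e1 : |∫ t in (0 : ℝ)..T, ff t| ≤ ∫ t in Ioc 0 M, |ff t| := by
      rw [intervalIntegral.integral_of_le hT0.le]
      refine (abs_integral_le_integral_abs).trans ?_
      exact setIntegral_mono_set (hi1 M).abs (Eventually.of_forall fun _ => abs_nonneg _)
        (Ioc_subset_Ioc_right hTM).eventuallyLE
    have e2 : |∫ t in (0 : ℝ)..T, D0 t| ≤ ∫ t in Ioc 0 M, |D0 t| := by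
      rw [intervalIntegral.integral_of_le hT0.le]
      refine (abs_integral_le_integral_abs).trans ?_
      exact setIntegral_mono_set (hi2 M).abs (Eventually.of_forall fun _ => abs_nonneg _)
        (Ioc_subset_Ioc_right hTM).eventuallyLE
    have e3 : |(∫ t in (0 : ℝ)..T, ff t) - ∫ t in (0 : ℝ)..T, D0 t| ≤ C0 :=
      (abs_sub _ _).trans (add_le_add e1 e2)
    have h4 : 0 ≤ l 0 * |C| * (l 0)⁻¹ ^ (1 - δ) := by positivity
    calc _ ≤ C0 := e3
      _ ≤ (C0 + l 0 * |C| * (l 0)⁻¹ ^ (1 - δ) + 1) * 1 := by linarith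
      _ ≤ _ := mul_le_mul_of_nonneg_left hTp (by linarith)
  · have hl1 : l 0 ≤ T := (le_max_right _ _).trans hTM.le
    have h1 := hC (T / l 0) ((one_le_div hl0).2 hl1)
    simp only [one_mul, Finset.univ_unique, Fin.default_eq_zero, Fin.isValue, Finset.prod_singleton] at h1
    rw [intervalIntegral.integral_ofReal, intervalIntegral.integral_ofReal, ← ofReal_sub, norm_real,
      Real.norm_eq_abs, intervalIntegral.integral_comp_mul_left (fun u => ff u) hl0.ne',
      intervalIntegral.integral_comp_mul_left (fun u => D0 u) hl0.ne', mul_zero,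
      mul_div_cancel₀ _ hl0.ne', smul_eq_mul, smul_eq_mul, ← mul_sub, abs_mul,
      abs_of_pos (inv_pos.2 hl0)] at h1
    have h2 : |(∫ t in (0 : ℝ)..T, ff t) - ∫ t in (0 : ℝ)..T, D0 t| ≤ l 0 * (C * (T / l 0) ^ (1 - δ)) := by
      rwa [inv_mul_le_iff₀ hl0] at h1
    have h3 : (T / l 0) ^ (1 - δ) = T ^ (1 - δ) * (l 0)⁻¹ ^ (1 - δ) := by
      rw [div_eq_mul_inv, Real.mul_rpow hT0.le (inv_nonneg.2 hl0.le)]
    calc _ ≤ l 0 * (C * (T / l 0) ^ (1 - δ)) := h2
      _ ≤ l 0 * (|C| * (T / l 0) ^ (1 - δ)) := by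
        gcongr
        exact le_abs_self C
      _ = l 0 * |C| * (l 0)⁻¹ ^ (1 - δ) * T ^ (1 - δ) := by rw [h3]; ring
      _ ≤ _ := mul_le_mul_of_nonneg_right (by linarith) (by positivity)

open Polynomial in
/-- a polynomial in `log u` is at most a small power of `u` -/
lemma poly_bd (q : ℝ[X]) {η : ℝ} (hη : 0 < η) : ∃ A : ℝ, 0 < A ∧ ∀ u : ℝ, 1 ≤ u →
    |q.eval (Real.log u)| ≤ A * u ^ η := by
  have h1 := Polynomial.tendsto_div_exp_atTop (q.comp (C η⁻¹ * X))
  have h2 : ∀ᶠ x : ℝ in atTop, |(q.comp (C η⁻¹ * X)).eval x / Real.exp x| ≤ 1 := by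
    have := h1.abs
    rw [abs_zero] at this
    exact (this.eventually (Iio_mem_nhds one_pos)).mono fun x hx => le_of_lt hx
  obtain ⟨x0, hx0⟩ := eventually_atTop.1 h2
  have hcont : ContinuousOn (fun x : ℝ => |(q.comp (C η⁻¹ * X)).eval x / Real.exp x|) (Icc 0 (max x0 0)) := by
    apply Continuous.continuousOn
    exact (((q.comp (C η⁻¹ * X)).continuous).div Real.continuous_exp fun x => (Real.exp_pos x).ne').abs
  obtain ⟨B, hB⟩ := (isCompact_Icc.image_of_continuousOn hcont).bddAbove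
  refine ⟨max B 1, lt_of_lt_of_le one_pos (le_max_right _ _), fun u hu => ?_⟩
  have hu0 : 0 < u := by linarith
  set x : ℝ := η * Real.log u with hx
  have hx0' : 0 ≤ x := mul_nonneg hη.le (Real.log_nonneg hu)
  have h3 : |(q.comp (C η⁻¹ * X)).eval x / Real.exp x| ≤ max B 1 := by
    rcases le_or_gt x (max x0 0) with h | h
    · exact (hB (mem_image_of_mem _ ⟨hx0', h⟩)).trans (le_max_left _ _)
    · exact (hx0 x ((le_max_left _ _).trans h.le)).trans (le_max_right _ _)
  have h4 : (q.comp (C η⁻¹ * X)).eval x = q.eval (Real.log u) := by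
    rw [eval_comp, eval_mul, eval_C, eval_X, hx, inv_mul_cancel_left₀ hη.ne']
  have h5 : Real.exp x = u ^ η := by
    rw [hx, Real.rpow_def_of_pos hu0, mul_comm]
  rw [h4, h5, abs_div, abs_of_pos (Real.rpow_pos_of_pos hu0 η), div_le_iff₀ (Real.rpow_pos_of_pos hu0 η)] at h3
  exact h3

/-- the product of the main terms as a polynomial in `log u` -/
lemma prod_D0 {k : ℕ} (l : Fin k → ℝ) (hl : ∀ j, 0 < l j) : ∃ q : Polynomial ℝ, ∀ u : ℝ, 0 < u →
    ∏ j, D0 (l j * u) = q.eval (Real.log u) := by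
  refine ⟨∏ j, (Polynomial.X + Polynomial.C (Real.log (l j / (2 * Real.pi)) +
    2 * Real.eulerMascheroniConstant)), fun u hu => ?_⟩
  rw [Polynomial.eval_prod]
  refine Finset.prod_congr rfl fun j _ => ?_
  have h1 : l j * u / (2 * Real.pi) = u * (l j / (2 * Real.pi)) := by ring
  have h2 : 0 < l j / (2 * Real.pi) := div_pos (hl j) (by positivity)
  simp only [Polynomial.eval_add, Polynomial.eval_X, Polynomial.eval_C, D0]
  rw [h1, Real.log_mul hu.ne' h2.ne']
  ring

/-- partial summation: the mean square with a weight which is a polynomial in `log` -/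
lemma weighted (q : Polynomial ℝ) {δ C : ℝ} (hδ : 0 < δ) (hδ1 : δ < 1) (hC : 0 < C) {g : ℝ → ℝ}
    (hg : ∀ T : ℝ, IntegrableOn g (Ioc 0 T)) (hgc : ContinuousOn g (Ioi 0))
    (h : ∀ T : ℝ, 1 ≤ T → |∫ t in (0 : ℝ)..T, g t| ≤ C * T ^ (1 - δ)) :
    ∃ C' : ℝ, 0 < C' ∧ ∀ T : ℝ, 1 ≤ T →
      |∫ t in (1 : ℝ)..T, q.eval (Real.log t) * g t| ≤ C' * T ^ (1 - δ / 2) := by
  obtain ⟨A, hA, hq⟩ := poly_bd q (η := δ / 2) (by linarith)
  obtain ⟨B, hB, hq'⟩ := poly_bd (Polynomial.derivative q) (η := δ / 2) (by linarith)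
  refine ⟨A * C + A * C + B * C * (1 - δ / 2)⁻¹, by
    have : 0 < 1 - δ / 2 := by linarith
    positivity, fun T hT => ?_⟩
  have hT0 : (0 : ℝ) < T := by linarith
  have hgi : ∀ a b : ℝ, 0 ≤ a → a ≤ b → IntervalIntegrable g volume a b := by
    intro a b ha hab
    rw [intervalIntegrable_iff_integrableOn_Ioc_of_le hab]
    exact (hg b).mono_set (Ioc_subset_Ioc_left ha)
  set G : ℝ → ℝ := fun t => ∫ x in (0 : ℝ)..t, g x with hG
  have hGd : ∀ t : ℝ, 0 < t → HasDerivAt G (g t) t := by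
    intro t ht
    refine intervalIntegral.integral_hasDerivAt_right (hgi 0 t le_rfl ht.le) ?_
      (hgc.continuousAt (Ioi_mem_nhds ht))
    exact hgc.stronglyMeasurableAtFilter isOpen_Ioi t ht
  have hPd : ∀ t : ℝ, 0 < t → HasDerivAt (fun t => q.eval (Real.log t))
      ((Polynomial.derivative q).eval (Real.log t) * t⁻¹) t := by
    intro t ht
    exact (q.hasDerivAt (Real.log t)).comp t (Real.hasDerivAt_log ht.ne')
  have hsub : uIcc 1 T ⊆ Ioi (0 : ℝ) := by
    rw [uIcc_of_le hT]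
    intro t ht
    exact lt_of_lt_of_le one_pos ht.1
  have hPc : ContinuousOn (fun t : ℝ => (Polynomial.derivative q).eval (Real.log t) * t⁻¹) (uIcc 1 T) := by
    refine ContinuousOn.mul ?_ ?_
    · exact (Polynomial.continuous _).comp_continuousOn (Real.continuousOn_log.mono fun t ht =>
        ne_of_gt (hsub ht))
    · exact continuousOn_inv₀.mono fun t ht => ne_of_gt (hsub ht)
  have key := intervalIntegral.integral_mul_deriv_eq_deriv_mul (a := 1) (b := T)
    (u := fun t => q.eval (Real.log t)) (v := G)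
    (u' := fun t => (Polynomial.derivative q).eval (Real.log t) * t⁻¹) (v' := g)
    (fun t ht => hPd t (hsub ht)) (fun t ht => hGd t (hsub ht)) hPc.intervalIntegrable
    (hgi 1 T zero_le_one hT)
  rw [key]
  have hTT : T ^ (δ / 2) * T ^ (1 - δ) = T ^ (1 - δ / 2) := by
    rw [← Real.rpow_add hT0]
    congr 1
    ring
  have hT1 : 1 ≤ T ^ (1 - δ / 2) := Real.one_le_rpow hT (by linarith)
  have b1 : |q.eval (Real.log T) * G T| ≤ A * C * T ^ (1 - δ / 2) := by
    rw [abs_mul]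
    calc _ ≤ (A * T ^ (δ / 2)) * (C * T ^ (1 - δ)) :=
          mul_le_mul (hq T hT) (h T hT) (abs_nonneg _) (by positivity)
      _ = A * C * (T ^ (δ / 2) * T ^ (1 - δ)) := by ring
      _ = _ := by rw [hTT]
  have b2 : |q.eval (Real.log 1) * G 1| ≤ A * C * T ^ (1 - δ / 2) := by
    rw [abs_mul]
    calc _ ≤ (A * (1 : ℝ) ^ (δ / 2)) * (C * (1 : ℝ) ^ (1 - δ)) :=
          mul_le_mul (hq 1 le_rfl) (h 1 le_rfl) (abs_nonneg _) (by positivity)
      _ = A * C * 1 := by rw [Real.one_rpow, Real.one_rpow]; ring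
      _ ≤ _ := mul_le_mul_of_nonneg_left hT1 (by positivity)
  have b3 : |∫ t in (1 : ℝ)..T, (Polynomial.derivative q).eval (Real.log t) * t⁻¹ * G t| ≤
      B * C * (1 - δ / 2)⁻¹ * T ^ (1 - δ / 2) := by
    have h1 : ‖∫ t in (1 : ℝ)..T, (Polynomial.derivative q).eval (Real.log t) * t⁻¹ * G t‖ ≤
        ∫ t in (1 : ℝ)..T, B * C * t ^ (-(δ / 2)) := by
      refine intervalIntegral.norm_integral_le_of_norm_le hT ?_ ?_
      · refine Eventually.of_forall fun t ht => ?_
        have ht1 : 1 ≤ t := ht.1.le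
        have ht0 : 0 < t := by linarith
        rw [norm_mul, norm_mul, Real.norm_eq_abs, Real.norm_eq_abs, Real.norm_eq_abs,
          abs_of_pos (inv_pos.2 ht0)]
        calc _ ≤ (B * t ^ (δ / 2) * t⁻¹) * (C * t ^ (1 - δ)) := by
              refine mul_le_mul ?_ (h t ht1) (abs_nonneg _) (by positivity)
              exact mul_le_mul_of_nonneg_right (hq' t ht1) (by positivity)
          _ = B * C * (t ^ (δ / 2) * t ^ (-1 : ℝ) * t ^ (1 - δ)) := by
              rw [Real.rpow_neg_one]; ring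
          _ = _ := by
              rw [← Real.rpow_add ht0, ← Real.rpow_add ht0]
              congr 2
              ring
      · refine IntervalIntegrable.const_mul ?_ _
        exact intervalIntegral.intervalIntegrable_rpow' (by linarith)
    rw [Real.norm_eq_abs] at h1
    refine h1.trans ?_
    rw [intervalIntegral.integral_const_mul, integral_rpow (Or.inl (by linarith))]
    have h2 : -(δ / 2) + 1 = 1 - δ / 2 := by ring
    rw [h2, Real.one_rpow]
    have h3 : 0 < 1 - δ / 2 := by linarith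
    have h4 : (T ^ (1 - δ / 2) - 1) / (1 - δ / 2) ≤ (1 - δ / 2)⁻¹ * T ^ (1 - δ / 2) := by
      rw [div_eq_inv_mul]
      exact mul_le_mul_of_nonneg_left (by linarith) (by positivity)
    calc _ ≤ B * C * ((1 - δ / 2)⁻¹ * T ^ (1 - δ / 2)) := mul_le_mul_of_nonneg_left h4 (by positivity)
      _ = _ := by ring
  have h5 := abs_sub (q.eval (Real.log T) * G T - q.eval (Real.log 1) * G 1)
    (∫ t in (1 : ℝ)..T, (Polynomial.derivative q).eval (Real.log t) * t⁻¹ * G t)
  have h6 := abs_sub (q.eval (Real.log T) * G T) (q.eval (Real.log 1) * G 1)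
  calc _ ≤ A * C * T ^ (1 - δ / 2) + A * C * T ^ (1 - δ / 2) + B * C * (1 - δ / 2)⁻¹ * T ^ (1 - δ / 2) := by
        linarith
    _ = _ := by ring

/-- the product of the squares at `t` and at `k` generic dilations of `t` -/
theorem with_one (hFIN : S_FIN) (hINT : S_INT) (hCRU : S_CRU) (hM4 : S_M4) :
    ∃ δ : ℝ, 0 < δ ∧ δ < 1 ∧ ∀ k : ℕ, 0 < k → ∃ s : ℝ, 0 < s ∧ s < k ∧ ∃ E : Set (Fin k → ℝ),
      dimH E ≤ ENNReal.ofReal s ∧ ∀ l : Fin k → ℝ, l ∉ E → (∀ j, 0 < l j) → ∃ C : ℝ, ∀ T : ℝ, 1 ≤ T →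
        |(∫ t in (0 : ℝ)..T, ff t * ∏ j, ff (l j * t)) - ∫ t in (0 : ℝ)..T, D0 t * ∏ j, D0 (l j * t)| ≤
          C * T ^ (1 - δ) := by
  obtain ⟨δ₁, hδ₁, hδ₁1, C₁, hC₁, hms⟩ := mean_square hFIN hINT
  obtain ⟨δ₂, hδ₂, hδ₂1, hfin⟩ := hFIN
  have hfc := ff_cont hCRU
  set δ : ℝ := min (δ₁ / 2) δ₂ with hδdef
  have hδ0 : 0 < δ := lt_min (by linarith) hδ₂
  have hδ1 : δ < 1 := lt_of_le_of_lt (min_le_right _ _) hδ₂1
  refine ⟨δ, hδ0, hδ1, fun k hk => ?_⟩
  obtain ⟨s, hs, hsk, h⟩ := hfin k hk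
  obtain ⟨E, hE, h⟩ := h _ (gr_ff hCRU hM4)
  refine ⟨s, hs, hsk, E, hE, fun l hl hl0 => ?_⟩
  obtain ⟨C₂, hC₂⟩ := h l hl hl0
  obtain ⟨q, hq⟩ := prod_D0 l hl0
  -- integrability
  have hi1 : ∀ T : ℝ, IntegrableOn (fun t => ff t * ∏ j, ff (l j * t)) (Ioc 0 T) := by
    intro T
    refine (Continuous.continuousOn ?_).integrableOn_Icc.mono_set Ioc_subset_Icc_self
    refine hfc.mul (continuous_finsetProd _ fun j _ => hfc.comp (continuous_const.mul continuous_id))
  have hi2 : ∀ T : ℝ, IntegrableOn (fun t => ff t * ∏ j, D0 (l j * t)) (Ioc 0 T) := by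
    intro T
    have h1 := (hINT k _ (gr_ff hCRU hM4) l hl0 T).2
    have h2 : Integrable (fun t => ((ff t * ∏ j, D0 (l j * t) : ℝ) : ℂ)) (volume.restrict (Ioc 0 T)) := by
      refine Integrable.congr h1 (Eventually.of_forall fun t => ?_)
      push_cast
      rfl
    exact h2.re.congr (Eventually.of_forall fun t => Complex.ofReal_re _)
  have hi3 : ∀ T : ℝ, IntegrableOn (fun t => D0 t * ∏ j, D0 (l j * t)) (Ioc 0 T) := by
    intro T
    have h1 := (hINT (k + 1) _ gr_one (Fin.cons 1 l) (fun j => by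
      refine Fin.cases ?_ (fun j => ?_) j
      · simp
      · simpa using hl0 j) T).2
    have h2 : Integrable (fun t => ((D0 t * ∏ j, D0 (l j * t) : ℝ) : ℂ)) (volume.restrict (Ioc 0 T)) := by
      refine Integrable.congr h1 (Eventually.of_forall fun t => ?_)
      simp [Fin.prod_univ_succ]
    exact h2.re.congr (Eventually.of_forall fun t => Complex.ofReal_re _)
  have hg1 : ∀ T : ℝ, IntegrableOn (fun t => ff t) (Ioc 0 T) := fun T =>
    hfc.continuousOn.integrableOn_Icc.mono_set Ioc_subset_Icc_self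
  have hg2 : ∀ T : ℝ, IntegrableOn (fun t => D0 t) (Ioc 0 T) := by
    intro T
    have h1 := (hINT 1 _ gr_one (fun _ => 1) (fun _ => one_pos) T).2
    simp only [one_mul, Finset.univ_unique, Finset.prod_const, Finset.card_singleton, pow_one] at h1
    show Integrable (fun t => D0 t) (volume.restrict (Ioc 0 T))
    simpa using h1.re
  have hg : ∀ T : ℝ, IntegrableOn (fun t => ff t - D0 t) (Ioc 0 T) := fun T => (hg1 T).sub (hg2 T)
  have hgc : ContinuousOn (fun t => ff t - D0 t) (Ioi 0) := by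
    refine hfc.continuousOn.sub ?_
    have := D0_cont (l := 1) one_pos
    simpa using this
  obtain ⟨C₃, hC₃, hw⟩ := weighted q hδ₁ hδ₁1 hC₁ hg hgc (fun T hT => by
    rw [intervalIntegral.integral_sub]
    · exact hms T hT
    · rw [intervalIntegrable_iff_integrableOn_Ioc_of_le (by linarith)]; exact hg1 T
    · rw [intervalIntegrable_iff_integrableOn_Ioc_of_le (by linarith)]; exact hg2 T)
  set C₄ : ℝ := |∫ t in (0 : ℝ)..1, (ff t - D0 t) * ∏ j, D0 (l j * t)| with hC₄
  refine ⟨|C₂| + C₃ + C₄, fun T hT => ?_⟩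
  have hT0 : (0 : ℝ) < T := by linarith
  have ii1 : IntervalIntegrable (fun t => ff t * ∏ j, ff (l j * t)) volume 0 T := by
    rw [intervalIntegrable_iff_integrableOn_Ioc_of_le hT0.le]; exact hi1 T
  have ii2 : ∀ a b : ℝ, 0 ≤ a → a ≤ b →
      IntervalIntegrable (fun t => ff t * ∏ j, D0 (l j * t)) volume a b := by
    intro a b ha hab
    rw [intervalIntegrable_iff_integrableOn_Ioc_of_le hab]; exact (hi2 b).mono_set (Ioc_subset_Ioc_left ha)
  have ii3 : ∀ a b : ℝ, 0 ≤ a → a ≤ b →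
      IntervalIntegrable (fun t => D0 t * ∏ j, D0 (l j * t)) volume a b := by
    intro a b ha hab
    rw [intervalIntegrable_iff_integrableOn_Ioc_of_le hab]; exact (hi3 b).mono_set (Ioc_subset_Ioc_left ha)
  have ii4 : ∀ a b : ℝ, 0 ≤ a → a ≤ b →
      IntervalIntegrable (fun t => (ff t - D0 t) * ∏ j, D0 (l j * t)) volume a b := by
    intro a b ha hab
    refine ((ii2 a b ha hab).sub (ii3 a b ha hab)).congr ?_
    intro t _
    simp only
    ring
  have e1 : |(∫ t in (0 : ℝ)..T, ff t * ∏ j, ff (l j * t)) - ∫ t in (0 : ℝ)..T, ff t * ∏ j, D0 (l j * t)| ≤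
      |C₂| * T ^ (1 - δ) := by
    have h1 := hC₂ T hT
    have h2 : ∀ P : ℝ → ℝ, (∫ t in (0 : ℝ)..T, ((ff t : ℝ) : ℂ) * ((P t : ℝ) : ℂ)) =
        ((∫ t in (0 : ℝ)..T, ff t * P t : ℝ) : ℂ) := by
      intro P
      rw [← intervalIntegral.integral_ofReal]
      refine intervalIntegral.integral_congr fun t _ => ?_
      push_cast
      rfl
    rw [h2 (fun t => ∏ j, ff (l j * t)), h2 (fun t => ∏ j, D0 (l j * t)), ← ofReal_sub, norm_real,
      Real.norm_eq_abs] at h1
    refine h1.trans ?_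
    refine (mul_le_mul_of_nonneg_right (le_abs_self C₂) (by positivity)).trans ?_
    refine mul_le_mul_of_nonneg_left ?_ (abs_nonneg _)
    exact Real.rpow_le_rpow_of_exponent_le hT (by linarith [min_le_right (δ₁ / 2) δ₂])
  have e2 : |(∫ t in (0 : ℝ)..T, ff t * ∏ j, D0 (l j * t)) -
      ∫ t in (0 : ℝ)..T, D0 t * ∏ j, D0 (l j * t)| ≤ (C₃ + C₄) * T ^ (1 - δ) := by
    rw [← intervalIntegral.integral_sub (ii2 0 T le_rfl hT0.le) (ii3 0 T le_rfl hT0.le)]
    have h1 : (∫ t in (0 : ℝ)..T, (ff t * ∏ j, D0 (l j * t) - D0 t * ∏ j, D0 (l j * t))) =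
        (∫ t in (0 : ℝ)..1, (ff t - D0 t) * ∏ j, D0 (l j * t)) +
        ∫ t in (1 : ℝ)..T, (ff t - D0 t) * ∏ j, D0 (l j * t) := by
      rw [intervalIntegral.integral_add_adjacent_intervals (ii4 0 1 le_rfl zero_le_one)
        (ii4 1 T zero_le_one hT)]
      refine intervalIntegral.integral_congr fun t _ => ?_
      ring
    have h2 : (∫ t in (1 : ℝ)..T, (ff t - D0 t) * ∏ j, D0 (l j * t)) =
        ∫ t in (1 : ℝ)..T, q.eval (Real.log t) * (ff t - D0 t) := by
      refine intervalIntegral.integral_congr fun t ht => ?_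
      rw [uIcc_of_le hT] at ht
      show (ff t - D0 t) * ∏ j, D0 (l j * t) = q.eval (Real.log t) * (ff t - D0 t)
      rw [hq t (by linarith [ht.1]), mul_comm]
    rw [h1, h2]
    have h3 : T ^ (1 - δ₁ / 2) ≤ T ^ (1 - δ) :=
      Real.rpow_le_rpow_of_exponent_le hT (by linarith [min_le_left (δ₁ / 2) δ₂])
    have h4 : 1 ≤ T ^ (1 - δ) := Real.one_le_rpow hT (by linarith)
    calc _ ≤ C₄ + C₃ * T ^ (1 - δ₁ / 2) := (abs_add_le _ _).trans (add_le_add le_rfl (hw T hT))
      _ ≤ C₄ * T ^ (1 - δ) + C₃ * T ^ (1 - δ) := by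
        refine add_le_add ?_ (mul_le_mul_of_nonneg_left h3 hC₃.le)
        calc C₄ = C₄ * 1 := (mul_one _).symm
          _ ≤ _ := mul_le_mul_of_nonneg_left h4 (abs_nonneg _)
      _ = _ := by ring
  calc _ ≤ |C₂| * T ^ (1 - δ) + (C₃ + C₄) * T ^ (1 - δ) := (abs_sub_le _ _ _).trans (add_le_add e1 e2)
    _ = _ := by ring

end Pool.Agent.U260.GZ
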