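import Pool.Agent.U260.GZ.Asm
import Pool.Agent.U460.GZ.DILK

set_option autoImplicit false

/-!
Project GDZ (helper260): the final theorem.
-/

namespace Pool.Agent.U260.GZ

open Pool.Agent.N879.GD

theorem fin : S_FIN := a_FIN (Pool.Agent.U460.GZ.t_DILK t_M4')

end Pool.Agent.U260.GZ
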